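import Pool.Agent.N219.Sep.Key

open scoped Real InnerProductSpace Topology
open Filter

namespace Pool.Agent.N219.Sep

/-- a balanced sign vector -/
def bal (s : Fin 4 → Bool) : Prop := (s 0).toNat + (s 1).toNat + (s 2).toNat + (s 3).toNat = 2

instance : DecidablePred bal := fun s => by unfold bal; infer_instance

/-- two sign vectors separating four points -/
def dif (s t : Fin 4 → Bool) : Prop := ∀ x y : Bool, ∃ i, s i = x ∧ t i = y ∧
  ∀ j, s j = x → t j = y → j = i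

instance (s t : Fin 4 → Bool) : Decidable (dif s t) := by unfold dif; infer_instance

theorem dif_symm {s t : Fin 4 → Bool} (h : dif s t) : dif t s := by
  intro x y
  obtain ⟨i, h1, h2, h3⟩ := h y x
  exact ⟨i, h2, h1, fun j a b => h3 j b a⟩

set_option maxRecDepth 100000 in
theorem D1 : ∀ s t : Fin 4 → Bool, bal s → bal t → ¬ dif s t → ∀ r, dif s r → dif t r := by
  decide

set_option maxRecDepth 100000 in
theorem D4 : ∀ s : Fin 4 → Bool, bal s → ∃ i j k l : Fin 4, i ≠ j ∧ i ≠ k ∧ i ≠ l ∧ j ≠ k ∧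
    j ≠ l ∧ k ≠ l ∧ s i = true ∧ s j = true ∧ s k = false ∧ s l = false := by
  decide

set_option maxRecDepth 100000 in
theorem D3 : ∀ i j k l : Fin 4, i ≠ j → i ≠ k → i ≠ l → j ≠ k → j ≠ l → k ≠ l →
    ∀ s0 : Fin 4 → Bool, s0 i = true → s0 j = true → s0 k = false → s0 l = false →
    ∀ s : Fin 4 → Bool, s i ≠ s j → s k ≠ s l → dif s0 s ∧ bal s := by
  decide

theorem GP.comp {z : Fin 8 → E3} (h : GP z) {g : Fin 8 → Fin 8} (hg : Function.Injective g) :
    GP (fun i => z (g i)) := by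
  intro i j k l h1 h2 h3 h4 h5 h6
  exact h _ _ _ _ (hg.ne h1) (hg.ne h2) (hg.ne h3) (hg.ne h4) (hg.ne h5) (hg.ne h6)

/-- lower indices -/
def lo (i : Fin 4) : Fin 8 := ⟨i.1, by omega⟩
/-- upper indices -/
def hi (i : Fin 4) : Fin 8 := ⟨i.1 + 4, by omega⟩

/-- a pair of sign vectors cut out by a plane -/
def Real' (z : Fin 8 → E3) (s t : Fin 4 → Bool) : Prop :=
  ∃ (n : E3) (c : ℝ), (∀ i, val n c (z i) ≠ 0) ∧ (∀ i, 0 < val n c (z (lo i)) ↔ s i = true) ∧
    (∀ i, 0 < val n c (z (hi i)) ↔ t i = true)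

set_option maxRecDepth 100000 in
theorem inj_lo_aux : ∀ i j k l : Fin 4, i ≠ j → i ≠ k → i ≠ l → j ≠ k → j ≠ l → k ≠ l →
    ∀ a b : Fin 8, ![lo i, lo j, lo k, lo l, hi 0, hi 1, hi 2, hi 3] a =
      ![lo i, lo j, lo k, lo l, hi 0, hi 1, hi 2, hi 3] b → a = b := by
  decide

theorem inj_lo (i j k l : Fin 4) (h1 : i ≠ j) (h2 : i ≠ k) (h3 : i ≠ l) (h4 : j ≠ k) (h5 : j ≠ l)
    (h6 : k ≠ l) : Function.Injective ![lo i, lo j, lo k, lo l, hi 0, hi 1, hi 2, hi 3] :=
  fun a b h => inj_lo_aux i j k l h1 h2 h3 h4 h5 h6 a b h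

set_option maxRecDepth 100000 in
theorem inj_hi_aux : ∀ i j k l : Fin 4, i ≠ j → i ≠ k → i ≠ l → j ≠ k → j ≠ l → k ≠ l →
    ∀ a b : Fin 8, ![hi i, hi j, hi k, hi l, lo 0, lo 1, lo 2, lo 3] a =
      ![hi i, hi j, hi k, hi l, lo 0, lo 1, lo 2, lo 3] b → a = b := by
  decide

theorem inj_hi (i j k l : Fin 4) (h1 : i ≠ j) (h2 : i ≠ k) (h3 : i ≠ l) (h4 : j ≠ k) (h5 : j ≠ l)
    (h6 : k ≠ l) : Function.Injective ![hi i, hi j, hi k, hi l, lo 0, lo 1, lo 2, lo 3] :=
  fun a b h => inj_hi_aux i j k l h1 h2 h3 h4 h5 h6 a b h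

theorem K1 {z : Fin 8 → E3} (h : GP z) {s0 : Fin 4 → Bool} (hs : bal s0) :
    ∃ s t, Real' z s t ∧ bal s ∧ bal t ∧ dif s0 s := by
  obtain ⟨i, j, k, l, h1, h2, h3, h4, h5, h6, si, sj, sk, sl⟩ := D4 s0 hs
  obtain ⟨n, c, r, r1, r2, r3, r4, r5⟩ := key (h.comp (inj_lo i j k l h1 h2 h3 h4 h5 h6))
  -- signs on all points
  refine ⟨fun m => decide (0 < val n c (z (lo m))), fun m => decide (0 < val n c (z (hi m))),
    ⟨n, c, ?_, by simp, by simp⟩, ?_⟩
  · intro m
    have hsur : Function.Surjective ![lo i, lo j, lo k, lo l, hi 0, hi 1, hi 2, hi 3] :=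
      Finite.surjective_of_injective (inj_lo i j k l h1 h2 h3 h4 h5 h6)
    obtain ⟨m', rfl⟩ := hsur m
    exact r1 m'
  · have e0 := r2 0
    have e1 := r2 1
    have e2 := r2 2
    have e3 := r2 3
    have e4 := r2 4
    have e5 := r2 5
    have e6 := r2 6
    have e7 := r2 7
    simp only [Matrix.cons_val] at e0 e1 e2 e3 e4 e5 e6 e7
    have hd := D3 i j k l h1 h2 h3 h4 h5 h6 s0 si sj sk sl
      (fun m => decide (0 < val n c (z (lo m))))
      (by
        intro hh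
        apply r3
        rw [Bool.eq_iff_iff, ← e0, ← e1]
        simpa using hh)
      (by
        intro hh
        apply r4
        rw [Bool.eq_iff_iff, ← e2, ← e3]
        simpa using hh)
    refine ⟨hd.2, ?_, hd.1⟩
    unfold bal
    have g : ∀ (x : Bool) (q : Prop) [Decidable q], (q ↔ x = true) → (decide q).toNat = x.toNat := by
      intro x q _ hq
      cases x
      · simp at hq; simp [hq]
      · simp at hq; simp [hq]
    rw [g _ _ e4, g _ _ e5, g _ _ e6, g _ _ e7]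
    exact r5

theorem K2 {z : Fin 8 → E3} (h : GP z) {s0 : Fin 4 → Bool} (hs : bal s0) :
    ∃ s t, Real' z s t ∧ bal s ∧ bal t ∧ dif s0 t := by
  obtain ⟨i, j, k, l, h1, h2, h3, h4, h5, h6, si, sj, sk, sl⟩ := D4 s0 hs
  obtain ⟨n, c, r, r1, r2, r3, r4, r5⟩ := key (h.comp (inj_hi i j k l h1 h2 h3 h4 h5 h6))
  refine ⟨fun m => decide (0 < val n c (z (lo m))), fun m => decide (0 < val n c (z (hi m))),
    ⟨n, c, ?_, by simp, by simp⟩, ?_⟩
  · intro m
    have hsur : Function.Surjective ![hi i, hi j, hi k, hi l, lo 0, lo 1, lo 2, lo 3] :=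
      Finite.surjective_of_injective (inj_hi i j k l h1 h2 h3 h4 h5 h6)
    obtain ⟨m', rfl⟩ := hsur m
    exact r1 m'
  · have e0 := r2 0
    have e1 := r2 1
    have e2 := r2 2
    have e3 := r2 3
    have e4 := r2 4
    have e5 := r2 5
    have e6 := r2 6
    have e7 := r2 7
    simp only [Matrix.cons_val] at e0 e1 e2 e3 e4 e5 e6 e7
    have hd := D3 i j k l h1 h2 h3 h4 h5 h6 s0 si sj sk sl
      (fun m => decide (0 < val n c (z (hi m))))
      (by
        intro hh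
        apply r3
        rw [Bool.eq_iff_iff, ← e0, ← e1]
        simpa using hh)
      (by
        intro hh
        apply r4
        rw [Bool.eq_iff_iff, ← e2, ← e3]
        simpa using hh)
    refine ⟨?_, hd.2, hd.1⟩
    unfold bal
    have g : ∀ (x : Bool) (q : Prop) [Decidable q], (q ↔ x = true) → (decide q).toNat = x.toNat := by
      intro x q _ hq
      cases x
      · simp at hq; simp [hq]
      · simp at hq; simp [hq]
    rw [g _ _ e4, g _ _ e5, g _ _ e6, g _ _ e7]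
    exact r5

/-- two planes cutting both quadruples into single points -/
theorem two_planes {z : Fin 8 → E3} (h : GP z) :
    ∃ s t s' t', Real' z s t ∧ Real' z s' t' ∧ dif s s' ∧ dif t t' := by
  obtain ⟨s, t, hr, bs, bt, -⟩ := K1 h (s0 := ![true, true, false, false]) (by decide)
  obtain ⟨s', t', hr', bs', bt', hd'⟩ := K1 h bs
  by_cases h1 : dif t t'
  · exact ⟨s, t, s', t', hr, hr', hd', h1⟩
  obtain ⟨s'', t'', hr'', bs'', bt'', hd''⟩ := K2 h bt
  by_cases h2 : dif s s''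
  · exact ⟨s, t, s'', t'', hr, hr'', h2, hd''⟩
  refine ⟨s'', t'', s', t', hr'', hr', D1 s s'' bs bs'' h2 s' hd', ?_⟩
  exact dif_symm (D1 t t' bt bt' h1 t'' hd'')

end Pool.Agent.N219.Sep
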