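import Mathlib

/-!
# Separating eight points in space by three planes: definitions
-/

open scoped Real InnerProductSpace

namespace Pool.Agent.N219.Sep

/-- Three-dimensional Euclidean space. -/
abbrev E3 := EuclideanSpace ℝ (Fin 3)

/-- The value `⟨n, x⟩ - c`; for `n ≠ 0` its zero set is the plane with normal vector `n` and
offset `c`. -/
noncomputable def val (n : E3) (c : ℝ) (x : E3) : ℝ := ⟪n, x⟫_ℝ - c

/-- General position: no four points of `P` lie on a common plane. -/
def GenPos (P : Finset E3) : Prop :=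
  ∀ Q ⊆ P, Q.card = 4 → ¬ ∃ (n : E3) (c : ℝ), n ≠ 0 ∧ ∀ x ∈ Q, val n c x = 0

/-- The complement of the union of three planes. -/
def compl3 (n : Fin 3 → E3) (c : Fin 3 → ℝ) : Set E3 := {x | ∀ i, val (n i) (c i) x ≠ 0}

/-- The three planes with normal vectors `n i` and offsets `c i` separate `P`: no point of `P` lies
on a plane, and each of the eight sign patterns is the pattern of exactly one point of `P`. -/
def Separates (n : Fin 3 → E3) (c : Fin 3 → ℝ) (P : Finset E3) : Prop :=
  (∀ i, n i ≠ 0) ∧ (∀ p ∈ P, p ∈ compl3 n c) ∧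
    ∀ σ : Fin 3 → Bool, ∃! p, p ∈ P ∧ ∀ i, (0 < val (n i) (c i) p ↔ σ i = true)

end Pool.Agent.N219.Sep
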