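import Pool.Agent.N219.Sep.Defs

open scoped Real InnerProductSpace Topology
open Filter

namespace Pool.Agent.N219.Sep

/-- general position for an indexed family -/
def GP (w : Fin 8 → E3) : Prop :=
  ∀ i j k l : Fin 8, i ≠ j → i ≠ k → i ≠ l → j ≠ k → j ≠ l → k ≠ l →
    ∀ (n : E3) (c : ℝ), n ≠ 0 → val n c (w i) = 0 → val n c (w j) = 0 → val n c (w k) = 0 →
      val n c (w l) ≠ 0

theorem val_add (n n' : E3) (c c' : ℝ) (x : E3) (e : ℝ) :
    val (n + e • n') (c + e * c') x = val n c x + e * val n' c' x := by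
  unfold val
  rw [inner_add_left, inner_smul_left]
  simp
  ring

/-- interpolation at four points in general position -/
theorem interp {w : Fin 8 → E3} (h : GP w) {i j k l : Fin 8} (hij : i ≠ j) (hik : i ≠ k)
    (hil : i ≠ l) (hjk : j ≠ k) (hjl : j ≠ l) (hkl : k ≠ l) (y : Fin 4 → ℝ) :
    ∃ (n : E3) (c : ℝ), val n c (w i) = y 0 ∧ val n c (w j) = y 1 ∧ val n c (w k) = y 2 ∧
      val n c (w l) = y 3 := by
  let L : (E3 × ℝ) →ₗ[ℝ] (Fin 4 → ℝ) :=
    { toFun := fun q => ![val q.1 q.2 (w i), val q.1 q.2 (w j), val q.1 q.2 (w k),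
        val q.1 q.2 (w l)]
      map_add' := by
        intro p q
        ext a
        fin_cases a <;> simp [val, inner_add_left] <;> ring
      map_smul' := by
        intro r q
        ext a
        fin_cases a <;> simp [val, inner_smul_left] <;> ring }
  have hL : ∀ q : E3 × ℝ, L q = ![val q.1 q.2 (w i), val q.1 q.2 (w j), val q.1 q.2 (w k),
        val q.1 q.2 (w l)] := fun q => rfl
  have hinj : Function.Injective L := by
    rw [injective_iff_map_eq_zero]
    rintro ⟨n, c⟩ hq
    rw [hL] at hq
    have h0 := congrFun hq 0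
    have h1 := congrFun hq 1
    have h2 := congrFun hq 2
    have h3 := congrFun hq 3
    simp at h0 h1 h2 h3
    by_cases hn : n = 0
    · subst hn
      simp [val] at h0
      simp [h0]
    · exact absurd h3 (h i j k l hij hik hil hjk hjl hkl n c hn h0 h1 h2)
  have hsurj : Function.Surjective L := by
    have hd : Module.finrank ℝ (E3 × ℝ) = Module.finrank ℝ (Fin 4 → ℝ) := by
      simp [Module.finrank_prod]
    exact (LinearMap.injective_iff_surjective_of_finrank_eq_finrank hd).1 hinj
  obtain ⟨q, hq⟩ := hsurj y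
  rw [hL] at hq
  refine ⟨q.1, q.2, ?_, ?_, ?_, ?_⟩
  · have := congrFun hq 0; simpa using this
  · have := congrFun hq 1; simpa using this
  · have := congrFun hq 2; simpa using this
  · have := congrFun hq 3; simpa using this

theorem pos_of_small {x y : ℝ} (hx : 0 < x) : ∀ᶠ e : ℝ in 𝓝[>] 0, 0 < x + e * y := by
  have hc : Tendsto (fun e : ℝ => x + e * y) (𝓝[>] 0) (𝓝 (x + 0 * y)) := by
    apply Tendsto.mono_left _ nhdsWithin_le_nhds
    exact (continuous_const.add (continuous_id.mul continuous_const)).tendsto 0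
  rw [zero_mul, add_zero] at hc
  exact hc.eventually (lt_mem_nhds hx)

theorem neg_of_small {x y : ℝ} (hx : x < 0) : ∀ᶠ e : ℝ in 𝓝[>] 0, x + e * y < 0 := by
  have hc : Tendsto (fun e : ℝ => x + e * y) (𝓝[>] 0) (𝓝 (x + 0 * y)) := by
    apply Tendsto.mono_left _ nhdsWithin_le_nhds
    exact (continuous_const.add (continuous_id.mul continuous_const)).tendsto 0
  rw [zero_mul, add_zero] at hc
  exact hc.eventually (gt_mem_nhds hx)

/-- the sign of `x + e y` for small positive `e` -/
theorem sign_of_small {x y : ℝ} (hx : x ≠ 0) :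
    ∀ᶠ e : ℝ in 𝓝[>] 0, x + e * y ≠ 0 ∧ (0 < x + e * y ↔ 0 < x) := by
  rcases lt_or_gt_of_ne hx with h | h
  · filter_upwards [neg_of_small (y := y) h] with e he
    exact ⟨he.ne, by constructor <;> intro h' <;> linarith⟩
  · filter_upwards [pos_of_small (y := y) h] with e he
    exact ⟨he.ne', by constructor <;> intro h' <;> linarith⟩

/-- the key lemma: a plane separating `w 0` from `w 1`, `w 2` from `w 3`, and halving the points
`w 4, w 5, w 6, w 7` -/
theorem key {w : Fin 8 → E3} (h : GP w) :
    ∃ (n : E3) (c : ℝ) (s : Fin 8 → Bool), (∀ i, val n c (w i) ≠ 0) ∧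
      (∀ i, 0 < val n c (w i) ↔ s i = true) ∧ s 0 ≠ s 1 ∧ s 2 ≠ s 3 ∧
      ((s 4).toNat + (s 5).toNat + (s 6).toNat + (s 7).toNat = 2) := by
  obtain ⟨n1, c1, ga1, gc1, gb1, gd1⟩ := interp h (i := 0) (j := 2) (k := 1) (l := 3) (by decide)
    (by decide) (by decide) (by decide) (by decide) (by decide) ![0, 0, 1, 0]
  obtain ⟨n2, c2, ga2, gc2, gb2, gd2⟩ := interp h (i := 0) (j := 2) (k := 1) (l := 3) (by decide)
    (by decide) (by decide) (by decide) (by decide) (by decide) ![0, 0, 0, 1]
  simp at ga1 gc1 gb1 gd1 ga2 gc2 gb2 gd2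
  have hn1 : n1 ≠ 0 := by
    rintro rfl
    simp [val] at ga1 gb1
    linarith
  -- the plane through `w 0`, `w 2` and a point `p`
  set N : E3 → E3 := fun p => (val n1 c1 p) • n2 - (val n2 c2 p) • n1 with hN
  set C : E3 → ℝ := fun p => (val n1 c1 p) * c2 - (val n2 c2 p) * c1 with hC
  have hv : ∀ p x, val (N p) (C p) x = val n1 c1 p * val n2 c2 x - val n2 c2 p * val n1 c1 x := by
    intro p x
    simp only [hN, hC, val, inner_sub_left, inner_smul_left]
    simp
    ring
  have hv0 : ∀ p, val (N p) (C p) (w 0) = 0 := by intro p; rw [hv, ga1, ga2]; ring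
  have hv2 : ∀ p, val (N p) (C p) (w 2) = 0 := by intro p; rw [hv, gc1, gc2]; ring
  have hvp : ∀ p, val (N p) (C p) p = 0 := by intro p; rw [hv]; ring
  have hNne : ∀ i : Fin 8, 4 ≤ i → N (w i) ≠ 0 := by
    intro i hi h0
    have h3 : val (N (w i)) (C (w i)) (w 3) = val (N (w i)) (C (w i)) (w 0) := by
      rw [h0]; simp [val]
    rw [hv, hv0, gd1, gd2] at h3
    have h4 : val n1 c1 (w i) = 0 := by linarith
    have hi0 : (0 : Fin 8) ≠ i := by rintro rfl; revert hi; decide
    have hi2 : (2 : Fin 8) ≠ i := by rintro rfl; revert hi; decide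
    have hi3 : (3 : Fin 8) ≠ i := by rintro rfl; revert hi; decide
    exact h 0 2 3 i (by decide) (by decide) hi0 (by decide) hi2 hi3 n1 c1 hn1 ga1 gc1 gd1 h4
  have hne : ∀ i j : Fin 8, 4 ≤ i → j ≠ 0 → j ≠ 2 → j ≠ i → val (N (w i)) (C (w i)) (w j) ≠ 0 := by
    intro i j hi hj0 hj2 hji
    have hi0 : (0 : Fin 8) ≠ i := by rintro rfl; revert hi; decide
    have hi2 : (2 : Fin 8) ≠ i := by rintro rfl; revert hi; decide
    exact h 0 2 i j (by decide) hi0 hj0.symm hi2 hj2.symm hji.symm _ _ (hNne i hi) (hv0 _) (hv2 _)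
      (hvp _)
  have hanti : ∀ p x, val (N p) (C p) x = - val (N x) (C x) p := by
    intro p x; rw [hv, hv]; ring
  -- a point `w i` such that the other three points are not on one side
  have hex : ∃ i : Fin 8, 4 ≤ i ∧ ∃ j k : Fin 8, 4 ≤ j ∧ 4 ≤ k ∧ j ≠ i ∧ k ≠ i ∧
      0 < val (N (w i)) (C (w i)) (w j) ∧ val (N (w i)) (C (w i)) (w k) < 0 := by
    have a45 := hne 4 5 (by decide) (by decide) (by decide) (by decide)
    have a46 := hne 4 6 (by decide) (by decide) (by decide) (by decide)
    have a56 := hne 5 6 (by decide) (by decide) (by decide) (by decide)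
    have b45 := hanti (w 5) (w 4)
    have b46 := hanti (w 6) (w 4)
    have b56 := hanti (w 6) (w 5)
    rcases lt_or_gt_of_ne a45 with c45 | c45 <;> rcases lt_or_gt_of_ne a46 with c46 | c46 <;>
      rcases lt_or_gt_of_ne a56 with c56 | c56
    · exact ⟨5, by decide, 4, 6, by decide, by decide, by decide, by decide, by linarith, c56⟩
    · exact ⟨6, by decide, 4, 5, by decide, by decide, by decide, by decide, by linarith,
        by linarith⟩
    · exact ⟨4, by decide, 6, 5, by decide, by decide, by decide, by decide, c46, c45⟩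
    · exact ⟨4, by decide, 6, 5, by decide, by decide, by decide, by decide, c46, c45⟩
    · exact ⟨4, by decide, 5, 6, by decide, by decide, by decide, by decide, c45, c46⟩
    · exact ⟨4, by decide, 5, 6, by decide, by decide, by decide, by decide, c45, c46⟩
    · exact ⟨6, by decide, 5, 4, by decide, by decide, by decide, by decide, by linarith,
        by linarith⟩
    · exact ⟨5, by decide, 6, 4, by decide, by decide, by decide, by decide, c56, by linarith⟩
  obtain ⟨i, hi, j, k, hj, hk, hji, hki, hpos, hneg⟩ := hex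
  have hi0 : i ≠ 0 := by rintro rfl; revert hi; decide
  have hi2 : i ≠ 2 := by rintro rfl; revert hi; decide
  have hi1 : i ≠ 1 := by rintro rfl; revert hi; decide
  have hi3 : i ≠ 3 := by rintro rfl; revert hi; decide
  set n := N (w i) with hn
  set c := C (w i) with hc
  have h1 : val n c (w 1) ≠ 0 := hne i 1 hi (by decide) (by decide) hi1.symm
  have h3 : val n c (w 3) ≠ 0 := hne i 3 hi (by decide) (by decide) hi3.symm
  -- for each choice of the sign at `w i`
  have hpert : ∀ b : Bool, ∃ (n' : E3) (c' : ℝ) (s : Fin 8 → Bool),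
      (∀ i, val n' c' (w i) ≠ 0) ∧ (∀ i, 0 < val n' c' (w i) ↔ s i = true) ∧ s 0 ≠ s 1 ∧
      s 2 ≠ s 3 ∧ s i = b ∧ ∀ m : Fin 8, 4 ≤ m → m ≠ i → (s m = true ↔ 0 < val n c (w m)) := by
    intro b
    obtain ⟨m, e, k0, k2, ki, k1⟩ := interp h (i := 0) (j := 2) (k := i) (l := 1) (by decide)
      hi0.symm (by decide) hi2.symm (by decide) hi1
      ![-val n c (w 1), -val n c (w 3), (if b then 1 else -1), 0]
    simp at k0 k2 ki k1
    have hall : ∀ᶠ t : ℝ in 𝓝[>] 0, ∀ l : Fin 8, val n c (w l) ≠ 0 →
        (val n c (w l) + t * val m e (w l) ≠ 0 ∧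
          (0 < val n c (w l) + t * val m e (w l) ↔ 0 < val n c (w l))) := by
      rw [eventually_all]
      intro l
      by_cases hl : val n c (w l) = 0
      · exact Eventually.of_forall fun t h' => absurd hl h'
      · filter_upwards [sign_of_small (y := val m e (w l)) hl] with t ht _
        exact ht
    have hT : ∀ᶠ t : ℝ in 𝓝[>] 0, 0 < t := self_mem_nhdsWithin
    obtain ⟨t, ht, htp⟩ := (hall.and hT).exists
    refine ⟨n + t • m, c + t * e, fun l => decide (0 < val (n + t • m) (c + t * e) (w l)), ?_, ?_,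
      ?_, ?_, ?_, ?_⟩
    · intro l
      rw [val_add]
      by_cases hl : val n c (w l) = 0
      · rw [hl, zero_add]
        apply mul_ne_zero htp.ne'
        by_cases l0 : l = 0
        · rw [l0, k0]; simpa using h1
        by_cases l2 : l = 2
        · rw [l2, k2]; simpa using h3
        by_cases li : l = i
        · rw [li, ki]; split_ifs <;> norm_num
        · exact absurd hl (hne i l hi l0 l2 li)
      · exact (ht l hl).1
    · intro l; simp
    · simp only [ne_eq, decide_eq_decide, val_add]
      rw [hn, hc, hv0, ← hn, ← hc, k0, k1]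
      rcases lt_or_gt_of_ne h1 with h' | h'
      · have : 0 < 0 + t * -val n c (w 1) := by
          have := mul_pos htp (neg_pos.2 h'); linarith
        intro hh
        have := hh.1 this
        linarith
      · intro hh
        have := hh.2 (by linarith)
        have := mul_pos htp h'
        linarith
    · simp only [ne_eq, decide_eq_decide, val_add]
      rw [hn, hc, hv2, ← hn, ← hc, k2]
      have h3' := (ht 3 h3).2
      rw [h3']
      rcases lt_or_gt_of_ne h3 with h' | h'
      · have : 0 < 0 + t * -val n c (w 3) := by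
          have := mul_pos htp (neg_pos.2 h'); linarith
        intro hh
        have := hh.1 this
        linarith
      · intro hh
        have := hh.2 h'
        have := mul_pos htp h'
        linarith
    · simp only [val_add]
      rw [hn, hc, hvp, ki]
      cases b
      · simp; linarith
      · simp; linarith
    · intro l hl hli
      have l0 : l ≠ 0 := by rintro rfl; revert hl; decide
      have l2 : l ≠ 2 := by rintro rfl; revert hl; decide
      simp only [decide_eq_true_eq, val_add]
      exact (ht l (hne i l hi l0 l2 hli)).2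
  obtain ⟨nt, ct, st, t1, t2, t3, t4, t5, t6⟩ := hpert true
  obtain ⟨nf, cf, sf, f1, f2, f3, f4, f5, f6⟩ := hpert false
  have hjt : st j = true := (t6 j hj hji).2 hpos
  have hkt : st k = false := by
    rw [← Bool.not_eq_true, t6 k hk hki]; linarith
  have hsf : ∀ m : Fin 8, 4 ≤ m → m ≠ i → sf m = st m := by
    intro m hm hmi
    rw [Bool.eq_iff_iff, f6 m hm hmi, t6 m hm hmi]
  have key3 : ∀ x y z : Bool, (x = true ∨ y = true ∨ z = true) → (x = false ∨ y = false ∨ z = false) →
      (1 + x.toNat + y.toNat + z.toNat = 2 ∨ 0 + x.toNat + y.toNat + z.toNat = 2) := by decide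
  have e4 : ∀ l : Fin 8, 4 ≤ l → l = 4 ∨ l = 5 ∨ l = 6 ∨ l = 7 := by decide
  have hcomb : ((st 4).toNat + (st 5).toNat + (st 6).toNat + (st 7).toNat = 2) ∨
      ((sf 4).toNat + (sf 5).toNat + (sf 6).toNat + (sf 7).toNat = 2) := by
    rcases e4 i hi with rfl | rfl | rfl | rfl
    · have := key3 (st 5) (st 6) (st 7)
        (by rcases e4 j hj with rfl | rfl | rfl | rfl <;> first | exact absurd rfl hji | tauto)
        (by rcases e4 k hk with rfl | rfl | rfl | rfl <;> first | exact absurd rfl hki | tauto)
      rw [hsf 5 (by decide) (by decide), hsf 6 (by decide) (by decide),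
        hsf 7 (by decide) (by decide), t5, f5, Bool.toNat_true, Bool.toNat_false]
      omega
    · have := key3 (st 4) (st 6) (st 7)
        (by rcases e4 j hj with rfl | rfl | rfl | rfl <;> first | exact absurd rfl hji | tauto)
        (by rcases e4 k hk with rfl | rfl | rfl | rfl <;> first | exact absurd rfl hki | tauto)
      rw [hsf 4 (by decide) (by decide), hsf 6 (by decide) (by decide),
        hsf 7 (by decide) (by decide), t5, f5, Bool.toNat_true, Bool.toNat_false]
      omega
    · have := key3 (st 4) (st 5) (st 7)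
        (by rcases e4 j hj with rfl | rfl | rfl | rfl <;> first | exact absurd rfl hji | tauto)
        (by rcases e4 k hk with rfl | rfl | rfl | rfl <;> first | exact absurd rfl hki | tauto)
      rw [hsf 4 (by decide) (by decide), hsf 5 (by decide) (by decide),
        hsf 7 (by decide) (by decide), t5, f5, Bool.toNat_true, Bool.toNat_false]
      omega
    · have := key3 (st 4) (st 5) (st 6)
        (by rcases e4 j hj with rfl | rfl | rfl | rfl <;> first | exact absurd rfl hji | tauto)
        (by rcases e4 k hk with rfl | rfl | rfl | rfl <;> first | exact absurd rfl hki | tauto)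
      rw [hsf 4 (by decide) (by decide), hsf 5 (by decide) (by decide),
        hsf 6 (by decide) (by decide), t5, f5, Bool.toNat_true, Bool.toNat_false]
      omega
  rcases hcomb with hc1 | hc1
  · exact ⟨nt, ct, st, t1, t2, t3, t4, hc1⟩
  · exact ⟨nf, cf, sf, f1, f2, f3, f4, hc1⟩

end Pool.Agent.N219.Sep
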