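import Pool.Agent.N219.Sep.Comb

open scoped Real InnerProductSpace Topology
open Filter

namespace Pool.Agent.N219.Sep

/-- a linear functional injective on a finite set -/
theorem exists_generic (P : Finset E3) : ∃ n : E3, ∀ p ∈ P, ∀ q ∈ P, p ≠ q → ⟪n, p⟫_ℝ ≠ ⟪n, q⟫_ℝ := by
  classical
  let K : E3 × E3 → Subspace ℝ E3 := fun pq => LinearMap.ker (innerₛₗ ℝ (pq.1 - pq.2))
  have hK : ∀ pq x, x ∈ K pq ↔ ⟪pq.1 - pq.2, x⟫_ℝ = 0 := by
    intro pq x
    rw [inner_sub_left]
    simp [K]
  have htop : (⊤ : Subspace ℝ E3) ∉ P.offDiag.image K := by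
    intro h
    obtain ⟨pq, hpq, h1⟩ := Finset.mem_image.1 h
    have h2 : pq.1 - pq.2 ∈ K pq := by rw [h1]; trivial
    rw [hK, inner_self_eq_zero, sub_eq_zero] at h2
    exact (Finset.mem_offDiag.1 hpq).2.2 h2
  have := Subspace.biUnion_ne_univ_of_top_notMem htop
  obtain ⟨n, hn⟩ := (Set.ne_univ_iff_exists_notMem _).1 this
  refine ⟨n, fun p hp q hq hpq h => hn ?_⟩
  simp only [Set.mem_iUnion, SetLike.mem_coe]
  refine ⟨K (p, q), Finset.mem_image.2 ⟨(p, q), Finset.mem_offDiag.2 ⟨hp, hq, hpq⟩, rfl⟩, ?_⟩
  rw [hK, inner_sub_left, real_inner_comm, real_inner_comm n q, h, sub_self]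

theorem cover : ∀ m : Fin 8, (∃ i, m = lo i) ∨ ∃ i, m = hi i := by decide

theorem lo_le : ∀ i : Fin 4, lo i ≤ 3 := by decide
theorem hi_ge : ∀ i : Fin 4, 4 ≤ hi i := by decide

theorem main {P : Finset E3} (hcard : P.card = 8) (hP : GenPos P) :
    ∃ (n : Fin 3 → E3) (c : Fin 3 → ℝ), Separates n c P := by
  classical
  obtain ⟨n0, hn0⟩ := exists_generic P
  set f : E3 → ℝ := fun p => ⟪n0, p⟫_ℝ with hf
  have hinj : Set.InjOn f P := by
    intro p hp q hq h
    by_contra hpq
    exact hn0 p hp q hq hpq h
  have hQ : (P.image f).card = 8 := by rw [Finset.card_image_of_injOn hinj, hcard]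
  set e := (P.image f).orderEmbOfFin hQ with he
  have hmem : ∀ i, ∃ p ∈ P, f p = e i := by
    intro i
    have := Finset.orderEmbOfFin_mem (P.image f) hQ i
    exact Finset.mem_image.1 this
  choose z hzP hze using hmem
  have hzinj : Function.Injective z := by
    intro i j hij
    have : e i = e j := by rw [← hze, ← hze, hij]
    exact e.injective this
  have hzsurj : ∀ p ∈ P, ∃ i, z i = p := by
    intro p hp
    have h1 : f p ∈ Set.range e := by
      rw [he, Finset.range_orderEmbOfFin]
      exact_mod_cast Finset.mem_image_of_mem f hp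
    obtain ⟨i, hi⟩ := h1
    exact ⟨i, hinj (hzP i) hp (by rw [hze, hi])⟩
  have hGP : GP z := by
    intro i j k l h1 h2 h3 h4 h5 h6 n c hn a1 a2 a3 a4
    refine hP {z i, z j, z k, z l} ?_ ?_ ⟨n, c, hn, ?_⟩
    · intro x hx
      simp only [Finset.mem_insert, Finset.mem_singleton] at hx
      rcases hx with rfl | rfl | rfl | rfl <;> exact hzP _
    · rw [Finset.card_eq_succ]
      refine ⟨z i, {z j, z k, z l}, ?_, rfl, ?_⟩
      · simp [hzinj.ne h1, hzinj.ne h2, hzinj.ne h3]
      · rw [Finset.card_eq_three]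
        exact ⟨_, _, _, hzinj.ne h4, hzinj.ne h5, hzinj.ne h6, rfl⟩
    · intro x hx
      simp only [Finset.mem_insert, Finset.mem_singleton] at hx
      rcases hx with rfl | rfl | rfl | rfl <;> assumption
  set c0 : ℝ := (e 3 + e 4) / 2 with hc0
  have h34 : e 3 < e 4 := e.strictMono (by decide)
  have hlo : ∀ i, val n0 c0 (z (lo i)) < 0 := by
    intro i
    have h1 : e (lo i) ≤ e 3 := e.monotone (lo_le i)
    have h2 : ⟪n0, z (lo i)⟫_ℝ = e (lo i) := hze _
    unfold val
    rw [h2]
    linarith
  have hhi : ∀ i, 0 < val n0 c0 (z (hi i)) := by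
    intro i
    have h1 : e 4 ≤ e (hi i) := e.monotone (hi_ge i)
    have h2 : ⟪n0, z (hi i)⟫_ℝ = e (hi i) := hze _
    unfold val
    rw [h2]
    linarith
  have hn0' : n0 ≠ 0 := by
    intro h
    have a := hlo 0
    have b := hhi 0
    rw [h] at a b
    simp [val] at a b
    linarith
  obtain ⟨s, t, s', t', ⟨n1, c1, r1, r2, r3⟩, ⟨n2, c2, q1, q2, q3⟩, hs, ht⟩ := two_planes hGP
  have hn1 : n1 ≠ 0 := by
    intro h
    obtain ⟨i, i1, -⟩ := hs true true
    obtain ⟨j, j1, -⟩ := hs false true
    have a := (r2 i).2 i1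
    have b : ¬ 0 < val n1 c1 (z (lo j)) := by rw [r2 j, j1]; simp
    rw [h] at a b
    simp [val] at a b
    linarith
  have hn2 : n2 ≠ 0 := by
    intro h
    obtain ⟨i, -, i1, -⟩ := hs true true
    obtain ⟨j, -, j1, -⟩ := hs true false
    have a := (q2 i).2 i1
    have b : ¬ 0 < val n2 c2 (z (lo j)) := by rw [q2 j, j1]; simp
    rw [h] at a b
    simp [val] at a b
    linarith
  refine ⟨![n0, n1, n2], ![c0, c1, c2], ?_, ?_, ?_⟩
  · intro i; fin_cases i
    · exact hn0'
    · exact hn1
    · exact hn2
  · intro p hp i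
    obtain ⟨m, rfl⟩ := hzsurj p hp
    fin_cases i
    · show val n0 c0 (z m) ≠ 0
      rcases cover m with ⟨j, rfl⟩ | ⟨j, rfl⟩
      · exact (hlo j).ne
      · exact (hhi j).ne'
    · exact r1 m
    · exact q1 m
  · intro σ
    have key : ∀ p, (∀ i, (0 < val ((![n0, n1, n2] : Fin 3 → E3) i) ((![c0, c1, c2] : Fin 3 → ℝ) i) p ↔ σ i = true)) ↔
        ((0 < val n0 c0 p ↔ σ 0 = true) ∧ (0 < val n1 c1 p ↔ σ 1 = true) ∧
          (0 < val n2 c2 p ↔ σ 2 = true)) := by
      intro p
      rw [Fin.forall_fin_succ, Fin.forall_fin_succ, Fin.forall_fin_succ]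
      simp
    simp only [key]
    cases hσ : σ 0 with
    | false =>
      obtain ⟨i, i1, i2, i3⟩ := hs (σ 1) (σ 2)
      refine ⟨z (lo i), ⟨hzP _, ?_, ?_, ?_⟩, ?_⟩
      · simp [(hlo i).le]
      · rw [r2, i1]
      · rw [q2, i2]
      · rintro p ⟨hp, p1, p2, p3⟩
        obtain ⟨m, rfl⟩ := hzsurj p hp
        rcases cover m with ⟨j, rfl⟩ | ⟨j, rfl⟩
        · rw [r2] at p2
          rw [q2] at p3
          rw [i3 j (Bool.eq_iff_iff.2 p2) (Bool.eq_iff_iff.2 p3)]
        · exact absurd (p1.1 (hhi j)) (by simp)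
    | true =>
      obtain ⟨i, i1, i2, i3⟩ := ht (σ 1) (σ 2)
      refine ⟨z (hi i), ⟨hzP _, ?_, ?_, ?_⟩, ?_⟩
      · simp [hhi i]
      · rw [r3, i1]
      · rw [q3, i2]
      · rintro p ⟨hp, p1, p2, p3⟩
        obtain ⟨m, rfl⟩ := hzsurj p hp
        rcases cover m with ⟨j, rfl⟩ | ⟨j, rfl⟩
        · have := p1.2 rfl
          have := hlo j
          linarith
        · rw [r3] at p2
          rw [q3] at p3
          rw [i3 j (Bool.eq_iff_iff.2 p2) (Bool.eq_iff_iff.2 p3)]

/-- the compartments (connected components of the complement of the planes) each contain exactly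
one point -/
theorem compartments {n : Fin 3 → E3} {c : Fin 3 → ℝ} {P : Finset E3} (h : Separates n c P) :
    ∀ x ∈ compl3 n c, ∃! p, p ∈ P ∧ p ∈ connectedComponentIn (compl3 n c) x := by
  intro x hx
  have hcont : ∀ i, Continuous (fun y => val (n i) (c i) y) := by
    intro i
    unfold val
    fun_prop
  -- a point is in the component of `x` iff it has the same signs
  have hcell : ∀ y, y ∈ connectedComponentIn (compl3 n c) x ↔
      y ∈ compl3 n c ∧ ∀ i, (0 < val (n i) (c i) y ↔ 0 < val (n i) (c i) x) := by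
    intro y
    constructor
    · intro hy
      have hyc : y ∈ compl3 n c := connectedComponentIn_subset _ _ hy
      refine ⟨hyc, fun i => ?_⟩
      have hpre : IsPreconnected (connectedComponentIn (compl3 n c) x) :=
        isPreconnected_connectedComponentIn
      have hxm : x ∈ connectedComponentIn (compl3 n c) x := mem_connectedComponentIn hx
      have key : ∀ u v, u ∈ connectedComponentIn (compl3 n c) x →
          v ∈ connectedComponentIn (compl3 n c) x → 0 < val (n i) (c i) u →
          0 < val (n i) (c i) v := by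
        intro u v hu hv hpos
        by_contra hneg
        have hv0 : val (n i) (c i) v ≠ 0 := connectedComponentIn_subset _ _ hv i
        have hv1 : val (n i) (c i) v < 0 := lt_of_le_of_ne (not_lt.1 hneg) hv0
        have := hpre.intermediate_value hv hu (hcont i).continuousOn
        obtain ⟨w, hw, hw0⟩ := this ⟨hv1.le, hpos.le⟩
        exact connectedComponentIn_subset _ _ hw i hw0
      exact ⟨fun h' => key y x hy hxm h', fun h' => key x y hxm hy h'⟩
    · rintro ⟨hyc, hsign⟩
      have hseg : segment ℝ x y ⊆ compl3 n c := by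
        rintro w ⟨a, b, ha, hb, hab, rfl⟩ i
        have e1 : val (n i) (c i) (a • x + b • y) =
            a * val (n i) (c i) x + b * val (n i) (c i) y := by
          unfold val
          rw [inner_add_right, inner_smul_right, inner_smul_right]
          linear_combination (-(c i)) * (-hab) + 0 * hab
        rw [e1]
        have hx0 := hx i
        have hy0 := hyc i
        rcases lt_or_gt_of_ne hx0 with h1 | h1
        · have h2 : val (n i) (c i) y < 0 := by
            apply lt_of_le_of_ne _ hy0
            rw [← not_lt, hsign i]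
            linarith
          have : a * val (n i) (c i) x + b * val (n i) (c i) y < 0 := by
            rcases ha.eq_or_lt with h3 | h3
            · have : b = 1 := by linarith
              rw [← h3, this]; linarith
            · have := mul_neg_of_pos_of_neg h3 h1
              have := mul_nonpos_of_nonneg_of_nonpos hb h2.le
              linarith
          exact this.ne
        · have h2 : 0 < val (n i) (c i) y := (hsign i).2 h1
          have : 0 < a * val (n i) (c i) x + b * val (n i) (c i) y := by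
            rcases ha.eq_or_lt with h3 | h3
            · have : b = 1 := by linarith
              rw [← h3, this]; linarith
            · have := mul_pos h3 h1
              have := mul_nonneg hb h2.le
              linarith
          exact this.ne'
      have hpre : IsPreconnected (segment ℝ x y) := (convex_segment x y).isPreconnected
      exact hpre.subset_connectedComponentIn (left_mem_segment ℝ x y) hseg
        (right_mem_segment ℝ x y)
  obtain ⟨-, hP, hσ⟩ := h
  obtain ⟨p, ⟨hp1, hp2⟩, hp3⟩ := hσ (fun i => decide (0 < val (n i) (c i) x))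
  refine ⟨p, ⟨hp1, (hcell p).2 ⟨hP p hp1, fun i => by simpa using hp2 i⟩⟩, ?_⟩
  rintro q ⟨hq1, hq2⟩
  apply hp3
  refine ⟨hq1, fun i => ?_⟩
  simpa using ((hcell q).1 hq2).2 i

end Pool.Agent.N219.Sep
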